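import Pool.Agent.Helper43.Hw.Goals

/-! Packet H10: the zone. -/

set_option autoImplicit false

namespace Pool.Agent.Helper43.Hw.PkH10

open Finset
open Pool.Agent.Helper43.Gm (st mv nn Run Pri)
open Pool.Agent.Helper43.Hw

theorem kap_mono {μ R N : ℕ} {κ x : ℕ → ℕ} (hP : Play μ R N κ x) {a b : ℕ} (hab : a ≤ b)
    (hb : b < R) : κ a ≤ κ b := by
  induction b, hab using Nat.le_induction with
  | base => exact le_rfl
  | succ b _ ih => exact (ih (by omega)).trans (hP.mono b hb)

theorem T_le_sq {w : ℕ} (hw : 1 ≤ w) : T w ≤ w ^ 2 := by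
  have h := two_T w
  nlinarith

/-- The numerical core. -/
theorem core {l w T W D S E o f : ℤ} (hw : 0 < w) (hl : 0 < l) (hT : 0 < T) (hTw : T ≤ w ^ 2)
    (hD : w ^ 3 ≤ 12 * l * D) (hS : 96 * l * S ≤ w ^ 3) (hW : 48 * l * |W| ≤ w ^ 3)
    (hE : 96 * l * E ≤ w ^ 3) (h : D - S + W - E ≤ (o - f) * T) :
    w + 24 * l * f ≤ 24 * l * o := by
  have h1 : 48 * l * (-W) ≤ 48 * l * |W| :=
    mul_le_mul_of_nonneg_left (neg_le_abs W) (by positivity)
  have h2 : 24 * l * (D - S + W - E) ≤ 24 * l * ((o - f) * T) :=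
    mul_le_mul_of_nonneg_left h (by positivity)
  have h3 : w ^ 3 ≤ 24 * l * (D - S + W - E) := by nlinarith
  have h4 : w * T ≤ w ^ 3 := by
    have : w * T ≤ w * w ^ 2 := mul_le_mul_of_nonneg_left hTw hw.le
    calc w * T ≤ w * w ^ 2 := this
      _ = w ^ 3 := by ring
  have h5 : w * T ≤ (24 * l * (o - f)) * T := by
    calc w * T ≤ w ^ 3 := h4
      _ ≤ 24 * l * ((o - f) * T) := h3.trans h2
      _ = (24 * l * (o - f)) * T := by ring
  have h6 := le_of_mul_le_mul_right h5 hT
  linarith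

theorem goalH10 (h1 : GoalH1) (h3 : GoalH3) (h7 : GoalH7) (h10a : GoalH10a)
    (h10b : GoalH10b) : GoalH10 := by
  intro μ R N l L y κ x h
  have hμ := h.μ1
  have hl := h.l1
  have hbig := h.big
  have hyR := h.y2
  have hzo := h.zo
  have hyN := h.ex.2.1
  have hP := h.play
  have hR : μ + 2 ≤ R := by omega
  obtain ⟨g1, g2, g3, g4, g5, g6, g7⟩ := h1 μ R N κ x hμ hR hP
  obtain ⟨a1, a2, a3⟩ := h10a μ R N l L y κ x h
  obtain ⟨b1, b2⟩ := h10b μ R N l L y κ x h
  obtain ⟨c1, c2, c3⟩ := h3 μ R N κ x y hμ hR hP h.ex hzo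
  have hL : 1 ≤ L := by
    rcases Nat.eq_zero_or_pos L with h0 | h0
    · exfalso
      have := h.hL
      rw [h0] at this
      omega
    · exact h0
  have hw1 : 1500000 * l ≤ R - 1 - y := by
    have := h.w1
    calc 1500000 * l = 1500000 * l * 1 := by ring
      _ ≤ 1500000 * l * L := Nat.mul_le_mul_left _ hL
      _ ≤ R - 1 - y := this
  have d1 := h7 μ R N l y (R - 1 - y) κ x hμ hl h.lo hbig hP h.ex hzo rfl (by omega)
  have hw3 := h.w3
  have hRy : R - y = (R - 1 - y) + 1 := by omega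
  rw [hRy] at c2 c3
  set w := R - 1 - y with hw
  have hw0 : 1 ≤ w := by omega
  have hTw : T w ≤ w ^ 2 := T_le_sq hw0
  have hT0 : 0 < T w := by
    have := two_T w
    have h2 : 0 < w * (w + 1) := by positivity
    omega
  have hkk : R - 1 - μ < ac R κ x (κ y) → y - ac R κ x (κ y) ≤ 24 * l := by
    intro hJ
    obtain ⟨b3, b4⟩ := b1 hJ
    by_contra hc
    have h5 : (24 * l + 1) * w ≤ (y - ac R κ x (κ y)) * w := Nat.mul_le_mul_right _ (by omega)
    have h6 : 24 * l * (x y - na μ R y) ≤ 24 * l * w := Nat.mul_le_mul_left _ b4.le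
    have h7 : (24 * l + 1) * w = 24 * l * w + w := by ring
    omega
  have hD : (w : ℤ) ^ 3 ≤ 12 * l * (Dd μ R κ x y : ℤ) := by exact_mod_cast d1
  have hS : 96 * (l : ℤ) * (Sd μ R κ x y : ℤ) ≤ (w : ℤ) ^ 3 := by exact_mod_cast a3
  have hlw : (1500000 : ℤ) * l ≤ w := by exact_mod_cast hw1
  have hl' : (1 : ℤ) ≤ l := by exact_mod_cast hl
  have hw0' : (1 : ℤ) ≤ w := by exact_mod_cast hw0
  have hTw' : (T w : ℤ) ≤ (w : ℤ) ^ 2 := by exact_mod_cast hTw
  have hT0' : (0 : ℤ) < T w := by exact_mod_cast hT0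
  refine ⟨?_, ?_⟩
  · have key : (w : ℤ) + 24 * l * ((N - 1 - κ y : ℕ) : ℤ) ≤ 24 * l * (oo μ R κ x y : ℤ) := by
      rcases Nat.lt_or_ge (R - 1 - μ) (ac R κ x (κ y)) with hJ | hJ
      · obtain ⟨b3, b4⟩ := b1 hJ
        have hk := hkk hJ
        have hE : 96 * (l : ℤ) * (((w + 1 + (y - ac R κ x (κ y)) : ℕ) : ℤ) *
            ((x y - na μ R y : ℕ) : ℤ)) ≤ (w : ℤ) ^ 3 := by
          have e1 : (w + 1 + (y - ac R κ x (κ y))) * (x y - na μ R y) ≤ (w + 1 + 24 * l) * w :=
            Nat.mul_le_mul (by omega) b4.le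
          have e2 : 96 * l * (w + 1 + 24 * l) ≤ w * w := by
            have e3 : 96 * l * (w + 1 + 24 * l) ≤ 96 * l * (2 * w) :=
              Nat.mul_le_mul_left _ (by omega)
            have e4 : 96 * l * (2 * w) = (192 * l) * w := by ring
            have e5 : (192 * l) * w ≤ w * w := Nat.mul_le_mul_right _ (by omega)
            omega
          have e6 : 96 * l * ((w + 1 + (y - ac R κ x (κ y))) * (x y - na μ R y)) ≤ w ^ 3 := by
            calc 96 * l * ((w + 1 + (y - ac R κ x (κ y))) * (x y - na μ R y)) ≤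
                96 * l * ((w + 1 + 24 * l) * w) := Nat.mul_le_mul_left _ e1
              _ = (96 * l * (w + 1 + 24 * l)) * w := by ring
              _ ≤ (w * w) * w := Nat.mul_le_mul_right _ e2
              _ = w ^ 3 := by ring
          exact_mod_cast e6
        exact core (by omega) (by omega) hT0' hTw' hD hS hw3 hE (c2 hJ)
      · have hμw : μ ≤ 2 * w := b2 hJ
        have hE : 96 * (l : ℤ) * ((T w : ℤ) + ((w + 1 : ℕ) : ℤ) * μ) ≤ (w : ℤ) ^ 3 := by
          have e1 : T w + (w + 1) * μ ≤ 5 * w ^ 2 := by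
            have e2 : (w + 1) * μ ≤ (2 * w) * (2 * w) := Nat.mul_le_mul (by omega) hμw
            have e3 : (2 * w) * (2 * w) = 4 * w ^ 2 := by ring
            omega
          have e4 : 96 * l * (T w + (w + 1) * μ) ≤ w ^ 3 := by
            calc 96 * l * (T w + (w + 1) * μ) ≤ 96 * l * (5 * w ^ 2) := Nat.mul_le_mul_left _ e1
              _ = (480 * l) * w ^ 2 := by ring
              _ ≤ w * w ^ 2 := Nat.mul_le_mul_right _ (by omega)
              _ = w ^ 3 := by ring
          exact_mod_cast e4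
        refine core (by omega) (by omega) hT0' hTw' hD hS hw3 hE ?_
        have := c3
        linarith
    exact_mod_cast key
  · intro h2w
    have hJ : R - 1 - μ < ac R κ x (κ y) := by
      by_contra hc
      have := b2 (by omega)
      omega
    have hk := hkk hJ
    refine ⟨hJ, by omega, ?_⟩
    set Q := (range y).filter (fun t => R - 1 - μ < t ∧ κ t < κ y ∧ 0 < x t ∧ 0 < U μ R x t ∧
      U μ R x t ≤ w) with hQ
    have hsub : (range y).filter (fun t => 0 < x t ∧ 0 < U μ R x t ∧ U μ R x t ≤ w) ⊆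
        (Ico (R - μ - w) (R - μ) ∪ Q) ∪ Ico (ac R κ x (κ y)) y := by
      intro t ht
      rw [mem_filter, mem_range] at ht
      obtain ⟨ht1, ht2, ht3, ht4⟩ := ht
      rw [mem_union, mem_union]
      rcases Nat.lt_or_ge (R - 1 - μ) t with h5 | h5
      · have h6 : κ t ≤ κ y := kap_mono hP ht1.le (by omega)
        rcases Nat.lt_or_ge (κ t) (κ y) with h8 | h8
        · left; right
          rw [hQ, mem_filter, mem_range]
          exact ⟨ht1, h5, h8, ht2, ht3, ht4⟩
        · right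
          rw [mem_Ico]
          exact ⟨((g2 (κ y) t (by omega)).1 ⟨by omega, ht2⟩).1, ht1⟩
      · left; left
        rw [mem_Ico]
        unfold U at ht4
        omega
    have hcard := card_le_card hsub
    have hc1 := card_union_le (Ico (R - μ - w) (R - μ) ∪ Q) (Ico (ac R κ x (κ y)) y)
    have hc2 := card_union_le (Ico (R - μ - w) (R - μ)) Q
    rw [Nat.card_Ico] at hc1 hc2
    have hPn : Pn μ R x y ≤ w + Q.card + 24 * l := by
      have e1 : Pn μ R x y =
          ((range y).filter (fun t => 0 < x t ∧ 0 < U μ R x t ∧ U μ R x t ≤ w)).card := rfl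
      omega
    have e2 : l * Pn μ R x y ≤ l * w + l * Q.card + 24 * l ^ 2 := by
      calc l * Pn μ R x y ≤ l * (w + Q.card + 24 * l) := Nat.mul_le_mul_left _ hPn
        _ = l * w + l * Q.card + 24 * l ^ 2 := by ring
    have e3 : 2 * l + 72 * l ^ 2 ≤ l * w := by
      have e4 : l * (1500000 * l) ≤ l * w := Nat.mul_le_mul_left _ hw1
      have e5 : l * (1500000 * l) = 1500000 * l ^ 2 := by ring
      have e6 : l ≤ l ^ 2 := by nlinarith
      omega
    have e7 : l * w ≤ l * w * L := by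
      calc l * w = l * w * 1 := by ring
        _ ≤ l * w * L := Nat.mul_le_mul_left _ hL
    have e8 : 3624 * l * w * L = 3624 * (l * w * L) := by ring
    have e9 : 3627 * l * w * L = 3627 * (l * w * L) := by ring
    rw [e8] at a2
    rw [e9]
    omega

end Pool.Agent.Helper43.Hw.PkH10
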