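import Pool.Agent.Helper43.Hw.Goals

/-! Packet H10b: the moving point. -/

set_option autoImplicit false

namespace Pool.Agent.Helper43.Hw.PkH10b

open Finset
open Pool.Agent.Helper43.Gm (st mv nn Run Pri)
open Pool.Agent.Helper43.Hw

theorem kap_mono {μ R N : ℕ} {κ x : ℕ → ℕ} (hP : Play μ R N κ x) {a b : ℕ} (hab : a ≤ b)
    (hb : b < R) : κ a ≤ κ b := by
  induction b, hab using Nat.le_induction with
  | base => exact le_rfl
  | succ b _ ih => exact (ih (by omega)).trans (hP.mono b hb)

/-- The growth of the moving point. -/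
theorem growth (h4 : GoalH4) {μ R N l L y : ℕ} {κ x : ℕ → ℕ} (h : Zon μ R N l L κ x y) {t0 : ℕ}
    (h0 : R ≤ t0 + 1 + μ) (h0y : t0 ≤ y) (hκ : ∀ t, t0 ≤ t → t ≤ y → κ t = κ y) :
    ∀ t, t0 ≤ t → t ≤ y → (t - t0) * (R - 1 - y) + 24 * l * na μ R t ≤ 24 * l * x t := by
  have hμ := h.μ1
  have hbig := h.big
  have hyR := h.y2
  have hyN := h.ex.2.1
  intro t ht
  induction t, ht using Nat.le_induction with
  | base =>
    intro _
    have h5 := h.play.nat t0 (by omega) (by rw [hκ t0 le_rfl h0y]; exact hyN)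
    rw [Nat.sub_self, zero_mul, zero_add]
    exact Nat.mul_le_mul_left _ h5
  | succ t ht ih =>
    intro hty
    have ih' := ih (by omega)
    have e1 : κ t = κ y := hκ t ht (by omega)
    have e2 : κ (t + 1) = κ y := hκ (t + 1) (by omega) hty
    have h5 := (h4 μ R N κ x hμ (by omega) h.play t (by omega)).1 (by rw [e1]; exact hyN)
      (by rw [e2]; exact hyN)
    rw [e1, e2, h.ex.2.2 t (by omega), h.ex.2.2 (t + 1) hty, Nat.sub_self, zero_mul, add_zero] at h5
    have h6 := h.ih t (by omega) (by omega)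
    rw [e1] at h6
    have hna : na μ R (t + 1) = na μ R t + 1 := by
      unfold na; omega
    rw [hna] at h5 ⊢
    set f := N - 1 - κ y with hf
    set w := R - 1 - y with hw
    have h7 : x (t + 1) + f = x t + 1 + oo μ R κ x t + sk μ κ x t := by
      have h8 : f * (na μ R t + 1) = f * na μ R t + f := by ring
      rw [h8] at h5
      omega
    have h9 : w ≤ R - 1 - t := by omega
    have h10 : (t + 1 - t0) * w = (t - t0) * w + w := by
      have : t + 1 - t0 = (t - t0) + 1 := by omega
      rw [this]; ring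
    have h11 : 24 * l * (x (t + 1) + f) = 24 * l * (x t + 1 + oo μ R κ x t + sk μ κ x t) := by
      rw [h7]
    have h12 : 24 * l * (x (t + 1) + f) = 24 * l * x (t + 1) + 24 * l * f := by ring
    have h13 : 24 * l * (x t + 1 + oo μ R κ x t + sk μ κ x t) =
        24 * l * x t + 24 * l + 24 * l * oo μ R κ x t + 24 * l * sk μ κ x t := by ring
    have h14 : 24 * l * (na μ R t + 1) = 24 * l * na μ R t + 24 * l := by ring
    rw [h10, h14]
    rw [h12, h13] at h11
    omega

theorem goalH10b (h1 : GoalH1) (h4 : GoalH4) : GoalH10b := by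
  intro μ R N l L y κ x h
  have hμ := h.μ1
  have hl := h.l1
  have hbig := h.big
  have hyR := h.y2
  have hzo := h.zo
  have hyN := h.ex.2.1
  have hP := h.play
  have hR : μ + 2 ≤ R := by omega
  obtain ⟨g1, g2, g3, g4, g5, g6, g7⟩ := h1 μ R N κ x hμ hR hP
  have hx := hP.lt y (by omega)
  have hnx := hP.nat y (by omega) hyN
  have hna : na μ R y = μ - (R - 1 - y) := by unfold na; omega
  have hL : 1 ≤ L := by
    rcases Nat.eq_zero_or_pos L with h0 | h0
    · exfalso
      have := h.hL
      rw [h0] at this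
      omega
    · exact h0
  have hw1 : 1500000 * l ≤ R - 1 - y := by
    have := h.w1
    calc 1500000 * l = 1500000 * l * 1 := by ring
      _ ≤ 1500000 * l * L := Nat.mul_le_mul_left _ hL
      _ ≤ R - 1 - y := this
  have hysc : y < sc R κ (κ y) := ((g1 (κ y) y (by omega)).1).1 le_rfl
  constructor
  · intro hJ
    refine ⟨?_, by omega⟩
    rcases Nat.eq_zero_or_pos (x y) with hx0 | hx0
    · have h5 : aa κ x y ≤ κ y := by unfold aa; rw [hx0]; simp
      have h6 := ((g1 (κ y) y (by omega)).2).1 h5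
      have h7 : y - ac R κ x (κ y) = 0 := by omega
      rw [h7, zero_mul]
      exact Nat.zero_le _
    · obtain ⟨h5, h6⟩ := (g2 (κ y) y (by omega)).1 ⟨rfl, hx0⟩
      have h7 := growth h4 h (t0 := ac R κ x (κ y)) (by omega) h5
        (fun t ht hty => ((g2 (κ y) t (by omega)).2 ⟨ht, by omega⟩).1) y h5 le_rfl
      have h8 : 24 * l * (x y - na μ R y) = 24 * l * x y - 24 * l * na μ R y := by
        rw [Nat.mul_sub]
      rw [h8]
      omega
  · intro hJ
    by_contra hcon
    have hJR : R - 1 - μ < R := by omega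
    have h5 : ¬ aa κ x (R - 1 - μ) ≤ κ y := by
      intro h6
      have := ((g1 (κ y) (R - 1 - μ) hJR).2).1 h6
      omega
    have h6 : κ (R - 1 - μ) ≤ κ y := kap_mono hP (by omega) (by omega)
    have h7 : κ (R - 1 - μ) = κ y := by
      unfold aa at h5
      split_ifs at h5 <;> omega
    have h8 := growth h4 h (t0 := R - 1 - μ) (by omega) (by omega)
      (fun t ht hty => le_antisymm (kap_mono hP hty (by omega))
        (h7 ▸ kap_mono hP ht (by omega))) y (by omega) le_rfl
    have h9 : y - (R - 1 - μ) = μ - (R - 1 - y) := by omega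
    rw [h9] at h8
    set w := R - 1 - y with hw
    have h10 : 24 * l * x y ≤ 24 * l * μ := Nat.mul_le_mul_left _ hx.le
    have h11 : (μ - w) * (1500000 * l) ≤ (μ - w) * w := Nat.mul_le_mul_left _ hw1
    have h12 : μ ≤ 2 * (μ - w) := by omega
    have h13 : μ * (750000 * l) ≤ (2 * (μ - w)) * (750000 * l) := Nat.mul_le_mul_right _ h12
    have h14 : (2 * (μ - w)) * (750000 * l) = (μ - w) * (1500000 * l) := by ring
    have h15 : μ * (750000 * l) = 24 * l * μ + 749976 * (l * μ) := by ring
    have h16 : 0 < l * μ := Nat.mul_pos hl hμ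
    omega

end Pool.Agent.Helper43.Hw.PkH10b
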